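import Mathlib

set_option autoImplicit false

namespace Pool.Agent.Results.MP_ba1c1e_lc.No

open Set Filter Topology Function TopologicalSpace
open Cardinal hiding univ

abbrev X := ℕ → Bool

/-- the subset of `ℕ` with characteristic function `x` -/
def tr (x : X) : Set ℕ := {n | x n = true}

/-- the filter as a subspace of the Cantor set -/
def sp (F : Filter ℕ) : Set X := {x | tr x ∈ F}

/-- the positive sets as a subspace of the Cantor set -/
def pos (F : Filter ℕ) : Set X := {x | ∀ s ∈ F, (tr x ∩ s).Nonempty}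

lemma ad : ∃ D : X → Set ℕ, (∀ x, (D x).Infinite) ∧ ∀ x y, x ≠ y → (D x ∩ D y).Finite := by
  let c : X → ℕ → ℕ := fun x n => Encodable.encode ((List.range n).map x)
  have h : ∀ x y n m, c x n = c y m → n = m ∧ ∀ i < n, x i = y i := fun x y n m e => by
    have e := Encodable.encode_injective e
    have l : n = m := by simpa using congrArg List.length e
    subst l
    exact ⟨rfl, fun i hi => List.map_inj_left.1 e i (List.mem_range.2 hi)⟩
  refine ⟨fun x => range (c x), fun x => infinite_range_of_injective fun n m e => (h _ _ _ _ e).1,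
    fun x y ne => ?_⟩
  obtain ⟨i, hi⟩ := ne_iff.1 ne
  refine ((finite_Iic i).image (c x)).subset ?_
  rintro _ ⟨⟨n, rfl⟩, m, e⟩
  exact ⟨n, not_lt.1 fun l => hi ((h _ _ _ _ e.symm).2 i l), rfl⟩

lemma nonm (U : ℕ → Ultrafilter ℕ) (hU : ∀ n, (U n : Filter ℕ) ≤ cofinite) :
    ¬ IsMeagre {x : X | ∀ n, tr x ∈ U n} := by
  classical
  intro h
  obtain ⟨S, S1, S2, S3, S4⟩ := mem_residual_iff.1 h
  obtain ⟨O, hO⟩ := (S3.insert univ).exists_eq_range (insert_nonempty _ _)
  have O1 : ∀ j, IsOpen (O j) ∧ Dense (O j) := fun j => by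
    rcases (hO ▸ mem_range_self j : O j ∈ insert univ S) with e | e
    exacts [e ▸ ⟨isOpen_univ, dense_univ⟩, ⟨S1 _ e, S2 _ e⟩]
  let fl : Finset ℕ → X → X := fun T x i => if i ∈ T then !x i else x i
  have f1 : ∀ T, Continuous (fl T) := fun T => continuous_pi fun i => by
    by_cases k : i ∈ T <;> simp only [fl, k, if_true, if_false] <;> fun_prop
  have f2 : ∀ T, Involutive (fl T) := fun T x => funext fun i => by
    by_cases k : i ∈ T <;> simp [fl, k]
  obtain ⟨s, hs⟩ := (dense_iInter_of_isOpen (f := fun p : Finset ℕ × ℕ => fl p.1 ⁻¹' O p.2)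
    (fun p => (O1 _).1.preimage (f1 _)) fun p => (O1 _).2.preimage
      (Homeomorph.mk (f2 p.1).toPerm (f1 _) (f1 _)).isOpenMap).nonempty
  have : ∀ m : ℕ, ∃ g > m, ∀ x : X, (∀ i, m ≤ i → i < g → x i = s i) → ∀ j ≤ m, x ∈ O j := fun m => by
    have : (⋂ p ∈ ((Finset.range m).powerset : Set (Finset ℕ)) ×ˢ Iic m, fl p.1 ⁻¹' O p.2) ∈ 𝓝 s :=
      (biInter_mem ((Finset.finite_toSet _).prod (finite_Iic m))).2 fun p _ =>
        ((O1 _).1.preimage (f1 _)).mem_nhds (mem_iInter.1 hs p)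
    rw [nhds_pi, Filter.mem_pi] at this
    obtain ⟨I, I1, t, t1, t2⟩ := this
    obtain ⟨b, hb⟩ := I1.bddAbove
    refine ⟨m + b + 1, by omega, fun x hx j hj => ?_⟩
    let T := (Finset.range m).filter fun i => x i ≠ s i
    have := mem_iInter₂.1 (t2 (a := fl T x) fun i hi => ?_) (T, j)
      ⟨Finset.mem_coe.2 (Finset.mem_powerset.2 (Finset.filter_subset _ _)), hj⟩
    · rwa [mem_preimage, f2] at this
    · have : fl T x i = s i := by
        have := hb hi
        by_cases k : i < m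
        · by_cases e : x i = s i
          · simp [fl, T, e]
          · simp only [fl, T, Finset.mem_filter, Finset.mem_range, k, e, ne_eq, not_false_eq_true,
              and_self, if_true]
            exact (Bool.not_eq_iff.2 e)
        · simp [fl, T, k, hx i (by omega) (by omega)]
      exact this ▸ mem_of_mem_nhds (t1 i)
  choose g g1 g2 using this
  let m : ℕ → ℕ := fun k => g^[k] 0
  have ms : ∀ k, m (k + 1) = g (m k) := fun k => iterate_succ_apply' _ _ _
  have mm : StrictMono m := strictMono_nat_of_lt_succ fun k => ms k ▸ g1 _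
  obtain ⟨D, D1, D2⟩ := ad
  let Z : X → Set ℕ := fun y => {i | ∃ k ∈ D y, m k ≤ i ∧ i < m (k + 1)}
  have Z1 : ∀ n, {y | Z y ∈ U n}.Subsingleton := fun n y hy z hz => by
    by_contra ne
    refine (U n).mem_or_compl_mem (Z y ∩ Z z) |>.elim (fun k => ?_)
      fun k => (Ultrafilter.compl_mem_iff_notMem.1 k) (inter_mem hy hz)
    refine (Ultrafilter.compl_mem_iff_notMem.1 (hU n (Finite.compl_mem_cofinite ?_))) k
    refine ((D2 y z ne).biUnion fun k _ => finite_Iio (m (k + 1))).subset ?_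
    rintro i ⟨⟨k, a, b, c⟩, k', a', b', c'⟩
    have := mm.lt_iff_lt.1 (b.trans_lt c')
    have := mm.lt_iff_lt.1 (b'.trans_lt c)
    obtain rfl : k = k' := by omega
    exact mem_biUnion (x := k) ⟨a, a'⟩ c
  obtain ⟨y, hy⟩ : ∃ y, y ∉ ⋃ n, {y | Z y ∈ U n} := by
    by_contra hn
    push Not at hn
    haveI : Uncountable X := by rw [← aleph0_lt_mk_iff]; simpa using aleph0_lt_continuum
    exact not_countable_univ ((countable_iUnion fun n => (Z1 n).countable).mono fun y _ => hn y)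
  refine S4 (a := fun i => if i ∈ Z y then s i else true) (fun t ht => ?_) fun n => ?_
  · obtain ⟨j, rfl⟩ : t ∈ range O := hO ▸ mem_insert_of_mem _ ht
    obtain ⟨k, k1, k2⟩ := (D1 y).exists_gt j
    exact g2 (m k) _ (fun i a b => if_pos ⟨k, k1, a, ms k ▸ b⟩) j (k2.le.trans (mm.le_apply))
  · exact mem_of_superset (Ultrafilter.compl_mem_iff_notMem.2 fun k => hy (mem_iUnion.2 ⟨n, k⟩))
      fun i hi => if_neg hi

lemma zer {K : Type} (f : Set K → K) : ∃ S S' : Set K, S ⊂ S' ∧ f S = f S' := by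
  let W := (Order.succ #K).ord.ToType
  let x : W → K := wellFounded_lt.fix fun a ih => f {k | ∃ b, ∃ h : b < a, ih b h = k}
  have hx : ∀ a, x a = f (x '' Iio a) := fun a => by
    simp only [x]; rw [WellFounded.fix_eq]; congr 1; ext k; simp
  have : ∃ a, ∃ b < a, x b = x a := by
    by_contra hn
    push Not at hn
    have : Injective x := fun a b e => by
      rcases lt_trichotomy a b with l | l | l
      exacts [(hn _ _ l e).elim, l, (hn _ _ l e.symm).elim]
    exact (Order.lt_succ #K).not_ge (by simpa [W] using mk_le_of_injective this)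
  obtain ⟨a, ⟨b, l, e⟩, hm⟩ := wellFounded_lt.has_min {a | ∃ b < a, x b = x a} this
  refine ⟨x '' Iio b, x '' Iio a, ⟨image_mono (Iio_subset_Iio l.le), fun k => ?_⟩,
    by rw [← hx, ← hx, e]⟩
  obtain ⟨c, c1, c2⟩ := k ⟨b, l, rfl⟩
  exact hm b ⟨c, c1, c2⟩ l

lemma code (F : Filter ℕ) [F.NeBot] (h : (sp F × pos F) ≃ₜ pos F) : ∃ q : ℕ → X × X,
    (∀ A ∈ sp F, ∃ B ∈ pos F, (A, B) ∈ closure (range q)) ∧
    ∀ A, ∀ B ∈ pos F, (A, B) ∈ closure (range q) → A ∈ sp F := by
  have t : tr (fun _ => true) = univ := by simp [tr]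
  let o : pos F := ⟨fun _ => true, fun s hs => by simpa [t] using F.nonempty_of_mem hs⟩
  haveI : Nonempty (sp F) := ⟨⟨fun _ => true, by simp [sp, t]⟩⟩
  let φ : sp F → X × X := fun A => (A.1, (h (A, o)).1)
  have c : Continuous φ := by fun_prop
  refine ⟨φ ∘ denseSeq (sp F), fun A hA => ⟨_, (h (⟨A, hA⟩, o)).2, ?_⟩, fun A B hB k => ?_⟩
  · rw [range_comp]
    exact image_closure_subset_closure_image c ⟨⟨A, hA⟩, denseRange_denseSeq _ _, rfl⟩
  · obtain ⟨p, p1, p2⟩ := mem_closure_iff_seq_limit.1 k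
    choose n hn using p1
    have a : Tendsto (fun i => h (denseSeq (sp F) (n i), o)) atTop (𝓝 ⟨B, hB⟩) := by
      rw [tendsto_subtype_rng]
      exact ((continuous_snd.tendsto _).comp p2).congr fun i => by simp [← hn, φ]
    have b : Tendsto (fun i => (denseSeq (sp F) (n i)).1) atTop (𝓝 A) :=
      ((continuous_fst.tendsto _).comp p2).congr fun i => by simp [← hn, φ]
    have c : Continuous fun B : pos F => (h.symm B).1.1 := by fun_prop
    have := tendsto_nhds_unique b (((c.tendsto _).comp a).congr fun i => by simp)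
    exact this ▸ (h.symm ⟨B, hB⟩).1.2

theorem result : ∃ F : Filter ℕ, F ≤ cofinite ∧ ∅ ∉ F ∧ ¬ IsMeagre (sp F) ∧
    IsEmpty ((sp F × pos F) ≃ₜ pos F) := by
  classical
  obtain ⟨D, D1, D2⟩ := ad
  obtain ⟨j⟩ : Nonempty (Option (ℕ → X × X) ↪ X) := (le_def _ _).1
    (by simp [add_one_eq aleph0_le_continuum])
  let U : ℕ → Ultrafilter ℕ := fun n => (hyperfilter ℕ).map (Nat.pair n)
  have hU : ∀ n, (U n : Filter ℕ) ≤ cofinite := fun n =>
    (map_mono hyperfilter_le_cofinite).trans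
      (show Injective (Nat.pair n) from fun _ _ e => (Nat.pair_eq_pair.1 e).2).tendsto_cofinite
  let G : Set (ℕ → X × X) → Filter ℕ := fun S => cofinite ⊓ ⨅ ξ ∈ S, 𝓟 (D (j (some ξ)))ᶜ
  have G1 : ∀ S o, o ∉ some '' S → cofinite ⊓ 𝓟 (D (j o)) ≤ G S := fun S o ho =>
    le_inf inf_le_left (le_iInf₂ fun ξ hξ => le_principal_iff.2 (mem_inf_principal.2
      (mem_of_superset (D2 _ _ fun e => ho ⟨ξ, hξ, (j.injective e).symm⟩).compl_mem_cofinite
        fun n k a b => k ⟨a, b⟩)))
  have G2 : ∀ y, (cofinite ⊓ 𝓟 (D y)).NeBot := fun y => cofinite_inf_principal_neBot_iff.2 (D1 y)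
  let F : Set (ℕ → X × X) → Filter ℕ := fun S => (G S).bind fun n => U n
  have mb : ∀ {S s}, s ∈ F S ↔ {n | s ∈ (U n : Filter ℕ)} ∈ G S := Iff.rfl
  have F1 : ∀ S, (F S).NeBot := fun S => ⟨fun e => by
    have : ∅ ∈ F S := empty_mem_iff_bot.2 e
    rw [mb] at this
    have := G1 S none (by simp) this
    obtain ⟨n, hn⟩ := (G2 _).nonempty_of_mem this
    exact (U n).empty_notMem hn⟩
  by_contra hn
  have : ∀ S, Nonempty ((sp (F S) × pos (F S)) ≃ₜ pos (F S)) := fun S => by
    by_contra k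
    refine hn ⟨F S, fun s hs => mb.2 (univ_mem' fun n => hU n hs), fun e => (F1 S).ne (empty_mem_iff_bot.1 e),
      fun h => nonm U hU (h.mono fun x hx => (mb (s := tr x)).2 (univ_mem' fun n => hx n)), not_nonempty_iff.1 k⟩
  choose q q1 q2 using fun S => @code (F S) (F1 S) (this S).some
  obtain ⟨S, S', l, e⟩ := zer q
  obtain ⟨ξ, a, b⟩ := exists_of_ssubset l
  have le : F S' ≤ F S := fun s hs => mb.2
    ((inf_le_inf_left _ (biInf_mono l.subset) : G S' ≤ G S) (mb.1 hs))
  let A : X := fun k => decide (k.unpair.1 ∉ D (j (some ξ)))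
  have hA : {n | tr A ∈ (U n : Filter ℕ)} = (D (j (some ξ)))ᶜ := by
    ext n
    by_cases k : n ∈ D (j (some ξ)) <;> simp [U, tr, A, k, preimage, ← Ultrafilter.mem_coe]
  obtain ⟨B, B1, B2⟩ := q1 S' A (mb.2 (hA ▸ mem_inf_of_right
    (mem_iInf_of_mem ξ (mem_iInf_of_mem a (mem_principal_self _)))))
  have := mb.1 (q2 S A B (fun s hs => B1 s (le hs)) (e ▸ B2))
  rw [hA] at this
  have := G1 S (some ξ) (by simpa using b) this
  obtain ⟨n, h1, h2⟩ := (G2 _).nonempty_of_mem
    (inter_mem (mem_inf_of_right (mem_principal_self _)) this)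
  exact h2 h1

end Pool.Agent.Results.MP_ba1c1e_lc.No
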